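import Mathlib

/-!
# Project TRI, section 11: limits of measures along an ultrafilter, domination, uniqueness
-/

set_option autoImplicit false

open MeasureTheory Set Filter Topology
open scoped ENNReal NNReal BoundedContinuousFunction

namespace Pool.Agent.H36.Tri

/-- Finite measures of bounded mass on a fixed compact set converge along an ultrafilter. -/
theorem gpLim {E : Type*} [TopologicalSpace E] [T2Space E] [MeasurableSpace E] [BorelSpace E]
    (U : Ultrafilter ℕ) {K : Set E} (hK : IsCompact K) (C : ℝ≥0) (μ : ℕ → Measure E)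
    (hC : ∀ n, μ n univ ≤ C) (hμK : ∀ n, μ n Kᶜ = 0) :
    ∃ ν : Measure E, IsFiniteMeasure ν ∧ ν Kᶜ = 0 ∧ ∀ g : E → ℝ, Continuous g →
      Tendsto (fun n => ∫ x, g x ∂μ n) U (𝓝 (∫ x, g x ∂ν)) := by
  have hfin : ∀ n, IsFiniteMeasure (μ n) := fun n => ⟨(hC n).trans_lt ENNReal.coe_lt_top⟩
  let m : ℕ → FiniteMeasure E := fun n => ⟨μ n, hfin n⟩
  have hS := isCompact_setOfPred_finiteMeasure_le_of_isCompact C hK
  obtain ⟨ν, ⟨-, hν2⟩, hν⟩ := hS.ultrafilter_le_nhds (U.map m) (by
    rw [le_principal_iff, Ultrafilter.mem_coe, Ultrafilter.mem_map]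
    refine Filter.univ_mem' fun n => ⟨?_, ?_⟩
    · have h1 : ((m n).mass : ℝ≥0∞) ≤ C := by
        rw [FiniteMeasure.ennreal_mass]
        exact hC n
      exact_mod_cast h1
    · have h1 : (μ n) Kᶜ = 0 := hμK n
      exact (FiniteMeasure.null_iff_toMeasure_null (m n) Kᶜ).2 h1)
  have hν3 : (ν : Measure E) Kᶜ = 0 := (FiniteMeasure.null_iff_toMeasure_null ν Kᶜ).1 hν2
  have hlim : Tendsto m U (𝓝 ν) := by
    rwa [Ultrafilter.coe_map] at hν
  refine ⟨ν, inferInstance, hν3, fun g hg => ?_⟩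
  obtain ⟨B, hB⟩ := hK.exists_bound_of_continuousOn hg.continuousOn
  have hcont : Continuous fun x => max (-B) (min B (g x)) := by fun_prop
  have hbd : ∀ x, ‖max (-B) (min B (g x))‖ ≤ |B| := by
    intro x
    rw [Real.norm_eq_abs, abs_le]
    constructor
    · exact (neg_le_neg (le_abs_self B)).trans (le_max_left _ _)
    · exact max_le (neg_le_abs B) ((min_le_left _ _).trans (le_abs_self B))
  let g' : E →ᵇ ℝ := BoundedContinuousFunction.ofNormedAddCommGroup _ hcont |B| hbd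
  have heq : ∀ κ : Measure E, κ Kᶜ = 0 → ∫ x, g' x ∂κ = ∫ x, g x ∂κ := by
    intro κ hκ
    refine integral_congr_ae ?_
    have h1 : ∀ᵐ x ∂κ, x ∈ K := by
      rw [ae_iff]
      exact hκ
    filter_upwards [h1] with x hx
    have h2 := hB x hx
    rw [Real.norm_eq_abs, abs_le] at h2
    show max (-B) (min B (g x)) = g x
    rw [min_eq_right h2.2, max_eq_right h2.1]
  have h2 := (FiniteMeasure.tendsto_iff_forall_integral_tendsto.1 hlim) g'
  rw [← heq _ hν3]
  refine h2.congr fun n => ?_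
  exact heq _ (hμK n)

/-- Domination of finite measures tested against nonnegative bounded continuous functions. -/
theorem gpDom {E : Type*} [TopologicalSpace E] [HasOuterApproxClosed E] [MeasurableSpace E]
    [BorelSpace E] (μ ν : Measure E) [IsFiniteMeasure μ] [IsFiniteMeasure ν]
    [μ.WeaklyRegular] (h : ∀ g : E →ᵇ ℝ≥0, ∫⁻ x, g x ∂μ ≤ ∫⁻ x, g x ∂ν) : μ ≤ ν := by
  have hclosed : ∀ F : Set E, IsClosed F → μ F ≤ ν F := by
    intro F hF
    refine ge_of_tendsto' (HasOuterApproxClosed.tendsto_lintegral_apprSeq hF ν) fun n => ?_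
    exact (HasOuterApproxClosed.measure_le_lintegral hF μ n).trans (h _)
  refine Measure.le_iff.2 fun s hs => ?_
  rw [hs.measure_eq_iSup_isClosed_of_ne_top (measure_ne_top μ s)]
  refine iSup_le fun K => iSup_le fun hKs => iSup_le fun hK => ?_
  exact (hclosed K hK).trans (measure_mono hKs)

theorem gpGen {X Y : Type*} [MeasurableSpace X] [TopologicalSpace X] [BorelSpace X]
    [MeasurableSpace Y] [TopologicalSpace Y] [BorelSpace Y] :
    MeasurableSpace.generateFrom
      (image2 (· ×ˢ ·) {s : Set X | IsClosed s} {t : Set Y | IsClosed t}) =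
        (Prod.instMeasurableSpace : MeasurableSpace (X × Y)) :=
  generateFrom_eq_prod
    (by rw [BorelSpace.measurable_eq (α := X), borel_eq_generateFrom_isClosed])
    (by rw [BorelSpace.measurable_eq (α := Y), borel_eq_generateFrom_isClosed])
    ⟨fun _ => univ, fun _ => isClosed_univ, iUnion_const _⟩
    ⟨fun _ => univ, fun _ => isClosed_univ, iUnion_const _⟩

/-- Finite measures on a product of four spaces are determined by product test functions. -/
theorem gpExt {X₁ X₂ Y₁ Y₂ : Type*}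
    [MeasurableSpace X₁] [TopologicalSpace X₁] [BorelSpace X₁] [HasOuterApproxClosed X₁]
    [MeasurableSpace X₂] [TopologicalSpace X₂] [BorelSpace X₂] [HasOuterApproxClosed X₂]
    [MeasurableSpace Y₁] [TopologicalSpace Y₁] [BorelSpace Y₁] [HasOuterApproxClosed Y₁]
    [MeasurableSpace Y₂] [TopologicalSpace Y₂] [BorelSpace Y₂] [HasOuterApproxClosed Y₂]
    (μ ν : Measure ((X₁ × X₂) × (Y₁ × Y₂))) [IsFiniteMeasure μ] [IsFiniteMeasure ν]
    (h : ∀ (f₁ : X₁ →ᵇ ℝ≥0) (f₂ : X₂ →ᵇ ℝ≥0) (g₁ : Y₁ →ᵇ ℝ≥0) (g₂ : Y₂ →ᵇ ℝ≥0),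
      ∫⁻ p, ((f₁ p.1.1 * f₂ p.1.2 * g₁ p.2.1 * g₂ p.2.2 : ℝ≥0) : ℝ≥0∞) ∂μ =
      ∫⁻ p, ((f₁ p.1.1 * f₂ p.1.2 * g₁ p.2.1 * g₂ p.2.2 : ℝ≥0) : ℝ≥0∞) ∂ν) : μ = ν := by
  have hμν : μ univ = ν univ := by
    have := h 1 1 1 1
    simpa using this
  refine ext_of_generate_finite
    (image2 (· ×ˢ ·) (image2 (· ×ˢ ·) {s : Set X₁ | IsClosed s} {t : Set X₂ | IsClosed t})
      (image2 (· ×ˢ ·) {s : Set Y₁ | IsClosed s} {t : Set Y₂ | IsClosed t})) ?_ ?_ ?_ hμν
  · exact (generateFrom_eq_prod gpGen gpGen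
      ⟨fun _ => univ, fun _ => ⟨univ, isClosed_univ, univ, isClosed_univ, univ_prod_univ⟩,
        iUnion_const _⟩
      ⟨fun _ => univ, fun _ => ⟨univ, isClosed_univ, univ, isClosed_univ, univ_prod_univ⟩,
        iUnion_const _⟩).symm
  · exact (isPiSystem_isClosed.prod isPiSystem_isClosed).prod
      (isPiSystem_isClosed.prod isPiSystem_isClosed)
  · rintro - ⟨-, ⟨A, hA, B, hB, rfl⟩, -, ⟨C, hC, D, hD, rfl⟩, rfl⟩
    have hA' : IsClosed A := hA
    have hB' : IsClosed B := hB
    have hC' : IsClosed C := hC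
    have hD' : IsClosed D := hD
    have key : ∀ κ : Measure ((X₁ × X₂) × (Y₁ × Y₂)), IsFiniteMeasure κ →
        Tendsto (fun n => ∫⁻ p, ((hA'.apprSeq n p.1.1 * hB'.apprSeq n p.1.2 *
          hC'.apprSeq n p.2.1 * hD'.apprSeq n p.2.2 : ℝ≥0) : ℝ≥0∞) ∂κ) atTop
          (𝓝 (κ ((A ×ˢ B) ×ˢ (C ×ˢ D)))) := by
      intro κ hκ
      have hms : MeasurableSet ((A ×ˢ B) ×ˢ (C ×ˢ D)) :=
        (hA'.measurableSet.prod hB'.measurableSet).prod (hC'.measurableSet.prod hD'.measurableSet)
      rw [← lintegral_indicator_one hms]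
      refine tendsto_lintegral_filter_of_dominated_convergence 1
        (Eventually.of_forall fun n => by fun_prop)
        (Eventually.of_forall fun n => ae_of_all _ fun p => ?_) (by simp) (ae_of_all _ fun p => ?_)
      · have h1 := HasOuterApproxClosed.apprSeq_apply_le_one hA' n p.1.1
        have h2 := HasOuterApproxClosed.apprSeq_apply_le_one hB' n p.1.2
        have h3 := HasOuterApproxClosed.apprSeq_apply_le_one hC' n p.2.1
        have h4 := HasOuterApproxClosed.apprSeq_apply_le_one hD' n p.2.2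
        have h5 := mul_le_one' (mul_le_one' (mul_le_one' h1 h2) h3) h4
        exact ENNReal.coe_le_one_iff.2 h5
      · have t1 := tendsto_pi_nhds.1 (HasOuterApproxClosed.tendsto_apprSeq hA') p.1.1
        have t2 := tendsto_pi_nhds.1 (HasOuterApproxClosed.tendsto_apprSeq hB') p.1.2
        have t3 := tendsto_pi_nhds.1 (HasOuterApproxClosed.tendsto_apprSeq hC') p.2.1
        have t4 := tendsto_pi_nhds.1 (HasOuterApproxClosed.tendsto_apprSeq hD') p.2.2
        have t5 := (ENNReal.continuous_coe.tendsto _).comp (((t1.mul t2).mul t3).mul t4)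
        have e : ((A.indicator (fun _ => (1 : ℝ≥0)) p.1.1 * B.indicator (fun _ => (1 : ℝ≥0)) p.1.2 *
            C.indicator (fun _ => (1 : ℝ≥0)) p.2.1 * D.indicator (fun _ => (1 : ℝ≥0)) p.2.2 :
              ℝ≥0) : ℝ≥0∞) = ((A ×ˢ B) ×ˢ (C ×ˢ D)).indicator 1 p := by
          classical
          by_cases a : p.1.1 ∈ A <;> by_cases b : p.1.2 ∈ B <;> by_cases c : p.2.1 ∈ C <;>
            by_cases d : p.2.2 ∈ D <;> simp [indicator, mem_prod, a, b, c, d]
        rw [← e]
        exact t5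
    refine tendsto_nhds_unique (key μ inferInstance) ?_
    refine (key ν inferInstance).congr fun n => ?_
    exact (h _ _ _ _).symm

end Pool.Agent.H36.Tri
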