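import Pool.Agent.H24.Tri.Defs
import Pool.Agent.H36.Tri.GpLim

/-!
# Project TRI, section 11: Young measures
-/

set_option autoImplicit false

open MeasureTheory Set Filter Topology Metric ProbabilityTheory
open scoped ENNReal NNReal BoundedContinuousFunction ProbabilityTheory Real

namespace Pool.Agent.H36.Tri

open Pool.Agent.H24.Tri

/-- The Young measure of a bounded sequence of measurable functions along an ultrafilter. -/
theorem gpYoung (U : Ultrafilter ℕ) (r C : ℝ) (N : ℕ → ℂ → ℂ) (mN : ∀ n, Measurable (N n))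
    (bN : ∀ n z, ‖N n z‖ ≤ C) :
    ∃ ν : Kernel ℂ ℂ, IsMarkovKernel ν ∧ ∀ (φ : ℂ → ℝ) (b : ℂ →ᵇ ℝ), Continuous φ →
      Tendsto (fun n => ∫ x in closedBall (0 : ℂ) r, φ x * b (N n x)) U
        (𝓝 (∫ x in closedBall (0 : ℂ) r, φ x * ∫ y, b y ∂(ν x))) := by
  set X : Set ℂ := closedBall (0 : ℂ) r with hX
  have hXm : MeasurableSet X := measurableSet_closedBall
  have hXfin : volume X < ⊤ := measure_closedBall_lt_top
  have hmeas : ∀ n, Measurable fun x => (x, N n x) := fun n => measurable_id.prodMk (mN n)
  set μ : ℕ → Measure (ℂ × ℂ) := fun n => (volume.restrict X).map fun x => (x, N n x) with hμ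
  have hK : IsCompact (X ×ˢ closedBall (0 : ℂ) C) :=
    (isCompact_closedBall _ _).prod (isCompact_closedBall _ _)
  obtain ⟨m, hmfin, hmK, hm⟩ := gpLim U hK (volume X).toNNReal μ
    (fun n => by
      rw [hμ]
      show ((volume.restrict X).map fun x => (x, N n x)) univ ≤ _
      rw [Measure.map_apply (hmeas n) MeasurableSet.univ, preimage_univ,
        Measure.restrict_apply_univ, ENNReal.coe_toNNReal hXfin.ne])
    (fun n => by
      show ((volume.restrict X).map fun x => (x, N n x)) _ = 0
      rw [Measure.map_apply (hmeas n) hK.measurableSet.compl, Measure.restrict_apply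
        (hmeas n hK.measurableSet.compl)]
      convert measure_empty (μ := (volume : Measure ℂ))
      rw [eq_empty_iff_forall_notMem]
      rintro x ⟨h1, h2⟩
      exact h1 ⟨h2, by simpa using bN n x⟩)
  have hint : ∀ (n : ℕ) (g : ℂ × ℂ → ℝ), Continuous g →
      ∫ p, g p ∂(μ n) = ∫ x in X, g (x, N n x) := by
    intro n g hg
    exact integral_map (hmeas n).aemeasurable hg.aestronglyMeasurable
  -- the first marginal
  have hXf : IsFiniteMeasure (volume.restrict X) := ⟨by rwa [Measure.restrict_apply_univ]⟩
  have hfst : m.fst = volume.restrict X := by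
    refine ext_of_forall_integral_eq_of_IsFiniteMeasure fun f => ?_
    have h1 := hm (fun p => f p.1) (by fun_prop)
    have h2 : ∫ x, f x ∂m.fst = ∫ p, f p.1 ∂m := by
      rw [Measure.fst, integral_map measurable_fst.aemeasurable f.continuous.aestronglyMeasurable]
    rw [h2]
    refine tendsto_nhds_unique h1 ?_
    have h3 : (fun n => ∫ p, f p.1 ∂(μ n)) = fun _ => ∫ x in X, f x := by
      funext n
      exact hint n (fun p => f p.1) (by fun_prop)
    rw [h3]
    exact tendsto_const_nhds
  refine ⟨m.condKernel, inferInstance, fun φ b hφ => ?_⟩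
  have hg : Continuous fun p : ℂ × ℂ => φ p.1 * b p.2 := by fun_prop
  have h1 := hm _ hg
  have h2 : ∫ p, φ p.1 * b p.2 ∂m = ∫ x in X, φ x * ∫ y, b y ∂(m.condKernel x) := by
    have hdis : m = (volume.restrict X) ⊗ₘ m.condKernel := by
      conv_lhs => rw [← m.disintegrate m.condKernel, hfst]
    have hi : Integrable (fun p : ℂ × ℂ => φ p.1 * b p.2) m := by
      obtain ⟨B, hB⟩ := hK.exists_bound_of_continuousOn hg.continuousOn
      refine Integrable.of_bound hg.aestronglyMeasurable B ?_
      have h3 : ∀ᵐ x ∂m, x ∈ X ×ˢ closedBall (0 : ℂ) C := by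
        rw [ae_iff]
        exact hmK
      filter_upwards [h3] with x hx using hB x hx
    rw [hdis] at hi
    conv_lhs => rw [hdis]
    rw [Measure.integral_compProd hi]
    refine integral_congr_ae (ae_of_all _ fun x => ?_)
    exact integral_const_mul (φ x) _
  rw [← h2]
  refine h1.congr fun n => ?_
  exact hint n _ hg

end Pool.Agent.H36.Tri
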