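import Pool.Agent.H36.Tri.GpAtom
import Pool.Agent.H36.Tri.GpYoung

/-!
# Project TRI, section 11: GP from RIG
-/

set_option autoImplicit false

open MeasureTheory Set Filter Topology Metric ProbabilityTheory
open scoped ENNReal NNReal BoundedContinuousFunction ProbabilityTheory Real ComplexConjugate

namespace Pool.Agent.H36.Tri

open Pool.Agent.H24.Tri

/-- The statement of RIG. -/
def RigStmt (ρ : ℂ) : Prop :=
  ∀ (N₁ N₂ N₃ : ℂ → ℂ) (_ : Measurable N₁) (_ : Measurable N₂) (_ : Measurable N₃)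
    (C : ℝ) (_ : ∀ z, ‖N₁ z‖ ≤ C) (_ : ∀ z, ‖N₂ z‖ ≤ C) (_ : ∀ z, ‖N₃ z‖ ≤ C)
    (G : Set (ℂ × ℝ)) (_ : MeasurableSet G)
    (_ : ∀ p ∈ G, N₁ p.1 + N₂ (p.1 + cis p.2) + N₃ (p.1 + ρ * cis p.2) = 0)
    (_ : ∀ p ∈ G, (conj (Complex.I * cis p.2) *
      (N₂ (p.1 + cis p.2) + conj ρ * N₃ (p.1 + ρ * cis p.2))).re = 0)
    (_ : ∀ p ∈ G, N₂ (p.1 + cis p.2) + conj ρ * N₃ (p.1 + ρ * cis p.2) ≠ 0),
    volume G = 0

/-- Resonant triples of bounded labels. -/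
def Res (ρ : ℂ) (C : ℝ) : Set ((ℂ × ℝ) × (ℂ × (ℂ × ℂ))) :=
  {q | q.2.1 + q.2.2.1 + q.2.2.2 = 0 ∧
    (conj (Complex.I * cis q.1.2) * (q.2.2.1 + conj ρ * q.2.2.2)).re = 0 ∧
    1 ≤ ‖q.2.2.1 + conj ρ * q.2.2.2‖ ∧ ‖q.2.1‖ ≤ C ∧ ‖q.2.2.1‖ ≤ C ∧ ‖q.2.2.2‖ ≤ C}

theorem Res_measurable (ρ : ℂ) (C : ℝ) : MeasurableSet (Res ρ C) := by
  have hc := cis_continuous
  have c1 : Continuous fun q : (ℂ × ℝ) × (ℂ × (ℂ × ℂ)) => q.2.1 + q.2.2.1 + q.2.2.2 := by fun_prop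
  have c2 : Continuous fun q : (ℂ × ℝ) × (ℂ × (ℂ × ℂ)) =>
      (conj (Complex.I * cis q.1.2) * (q.2.2.1 + conj ρ * q.2.2.2)).re := by fun_prop
  have c3 : Continuous fun q : (ℂ × ℝ) × (ℂ × (ℂ × ℂ)) =>
      ‖q.2.2.1 + conj ρ * q.2.2.2‖ := by fun_prop
  have c4 : Continuous fun q : (ℂ × ℝ) × (ℂ × (ℂ × ℂ)) => ‖q.2.1‖ := by fun_prop
  have c5 : Continuous fun q : (ℂ × ℝ) × (ℂ × (ℂ × ℂ)) => ‖q.2.2.1‖ := by fun_prop
  have c6 : Continuous fun q : (ℂ × ℝ) × (ℂ × (ℂ × ℂ)) => ‖q.2.2.2‖ := by fun_prop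
  exact ((isClosed_eq c1 continuous_const).inter
    ((isClosed_eq c2 continuous_const).inter ((isClosed_le continuous_const c3).inter
      ((isClosed_le c4 continuous_const).inter ((isClosed_le c5 continuous_const).inter
          (isClosed_le c6 continuous_const)))))).measurableSet

/-- The kernel of triples. -/
noncomputable def pk3 (ν₁ ν₂ ν₃ : Kernel ℂ ℂ) (ρ : ℂ) : Kernel (ℂ × ℝ) (ℂ × (ℂ × ℂ)) :=
  (ν₁.comap Prod.fst measurable_fst) ×ₖ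
    ((ν₂.comap (fun p : ℂ × ℝ => p.1 + 1 * cis p.2) (shift_measurable 1)) ×ₖ
      (ν₃.comap (fun p : ℂ × ℝ => p.1 + ρ * cis p.2) (shift_measurable ρ)))

instance (ν₁ ν₂ ν₃ : Kernel ℂ ℂ) [IsMarkovKernel ν₁] [IsMarkovKernel ν₂] [IsMarkovKernel ν₃]
    (ρ : ℂ) : IsMarkovKernel (pk3 ν₁ ν₂ ν₃ ρ) := by
  unfold pk3
  infer_instance

theorem pk3_apply (ν₁ ν₂ ν₃ : Kernel ℂ ℂ) [IsMarkovKernel ν₁] [IsMarkovKernel ν₂]
    [IsMarkovKernel ν₃] (ρ : ℂ) (p : ℂ × ℝ) : pk3 ν₁ ν₂ ν₃ ρ p =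
      (ν₁ p.1).prod ((ν₂ (p.1 + 1 * cis p.2)).prod (ν₃ (p.1 + ρ * cis p.2))) := by
  unfold pk3
  rw [Kernel.prod_apply, Kernel.prod_apply, Kernel.comap_apply, Kernel.comap_apply,
    Kernel.comap_apply]

/-- By RIG, resonances have probability zero for almost all positions. -/
theorem gpNull (ρ : ℂ) (hrig : RigStmt ρ) (ν₁ ν₂ ν₃ : Kernel ℂ ℂ) [IsMarkovKernel ν₁]
    [IsMarkovKernel ν₂] [IsMarkovKernel ν₃] (C : ℝ) (hC : 0 ≤ C) :
    ∀ᵐ p : ℂ × ℝ, pk3 ν₁ ν₂ ν₃ ρ p (Prod.mk p ⁻¹' Res ρ C) = 0 := by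
  obtain ⟨f₁, mf₁, hf₁⟩ := Kernel.exists_measurable_map_eq_unitInterval ν₁
  obtain ⟨f₂, mf₂, hf₂⟩ := Kernel.exists_measurable_map_eq_unitInterval ν₂
  obtain ⟨f₃, mf₃, hf₃⟩ := Kernel.exists_measurable_map_eq_unitInterval ν₃
  have hR := Res_measurable ρ C
  -- the combined map
  set T : (ℂ × ℝ) × (unitInterval × (unitInterval × unitInterval)) →
      (ℂ × ℝ) × (ℂ × (ℂ × ℂ)) := fun q => (q.1, (f₁ q.1.1 q.2.1,
        (f₂ (q.1.1 + 1 * cis q.1.2) q.2.2.1, f₃ (q.1.1 + ρ * cis q.1.2) q.2.2.2))) with hT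
  have hTm : Measurable T := by
    have hc := cis_continuous
    have h1 : Measurable fun q : (ℂ × ℝ) × (unitInterval × (unitInterval × unitInterval)) =>
        f₁ q.1.1 q.2.1 := by
      have h0 : Measurable fun q : (ℂ × ℝ) × (unitInterval × (unitInterval × unitInterval)) =>
        (q.1.1, q.2.1) := by fun_prop
      exact mf₁.comp h0
    have h2 : Measurable fun q : (ℂ × ℝ) × (unitInterval × (unitInterval × unitInterval)) =>
        f₂ (q.1.1 + 1 * cis q.1.2) q.2.2.1 := by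
      have h0 : Measurable fun q : (ℂ × ℝ) × (unitInterval × (unitInterval × unitInterval)) =>
        (q.1.1 + 1 * cis q.1.2, q.2.2.1) := by fun_prop
      exact mf₂.comp h0
    have h3 : Measurable fun q : (ℂ × ℝ) × (unitInterval × (unitInterval × unitInterval)) =>
        f₃ (q.1.1 + ρ * cis q.1.2) q.2.2.2 := by
      have h0 : Measurable fun q : (ℂ × ℝ) × (unitInterval × (unitInterval × unitInterval)) =>
        (q.1.1 + ρ * cis q.1.2, q.2.2.2) := by fun_prop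
      exact mf₃.comp h0
    exact measurable_fst.prodMk (h1.prodMk (h2.prodMk h3))
  have hTR : MeasurableSet (T ⁻¹' Res ρ C) := hTm hR
  have hsec : ∀ p : ℂ × ℝ, pk3 ν₁ ν₂ ν₃ ρ p (Prod.mk p ⁻¹' Res ρ C) =
      volume (Prod.mk p ⁻¹' (T ⁻¹' Res ρ C)) := by
    intro p
    have g₁ : Measurable (f₁ p.1) := mf₁.comp measurable_prodMk_left
    have g₂ : Measurable (f₂ (p.1 + 1 * cis p.2)) := mf₂.comp measurable_prodMk_left
    have g₃ : Measurable (f₃ (p.1 + ρ * cis p.2)) := mf₃.comp measurable_prodMk_left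
    rw [pk3_apply, ← hf₁, ← hf₂, ← hf₃, Measure.map_prod_map _ _ g₂ g₃,
      Measure.map_prod_map _ _ g₁ (g₂.prodMap g₃),
      Measure.map_apply (g₁.prodMap (g₂.prodMap g₃)) (measurable_prodMk_left hR)]
    rfl
  have hprod : (volume : Measure ((ℂ × ℝ) × (unitInterval × (unitInterval × unitInterval))))
      (T ⁻¹' Res ρ C) = 0 := by
    rw [Measure.volume_eq_prod, Measure.prod_apply_symm hTR]
    refine (lintegral_congr fun t => ?_).trans lintegral_zero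
    -- apply RIG
    have hcl : ∀ f : ℂ → unitInterval → ℂ, Measurable (Function.uncurry f) → ∀ t : unitInterval,
        Measurable (fun x => if ‖f x t‖ ≤ C then f x t else 0) := by
      intro f hf t
      have h1 : Measurable fun x => f x t := hf.comp measurable_prodMk_right
      exact Measurable.ite (measurableSet_le h1.norm measurable_const) h1 measurable_const
    have hcb : ∀ f : ℂ → unitInterval → ℂ, ∀ (t : unitInterval) (x : ℂ),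
        ‖(if ‖f x t‖ ≤ C then f x t else 0)‖ ≤ C := by
      intro f t x
      split_ifs with h
      · exact h
      · rwa [norm_zero]
    have hval : ∀ p ∈ (fun x => (x, t)) ⁻¹' (T ⁻¹' Res ρ C),
        (if ‖f₁ p.1 t.1‖ ≤ C then f₁ p.1 t.1 else 0) = f₁ p.1 t.1 ∧
        (if ‖f₂ (p.1 + cis p.2) t.2.1‖ ≤ C then f₂ (p.1 + cis p.2) t.2.1 else 0) =
          f₂ (p.1 + 1 * cis p.2) t.2.1 ∧
        (if ‖f₃ (p.1 + ρ * cis p.2) t.2.2‖ ≤ C then f₃ (p.1 + ρ * cis p.2) t.2.2 else 0) =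
          f₃ (p.1 + ρ * cis p.2) t.2.2 := by
      intro p hp
      obtain ⟨-, -, -, h1, h2, h3⟩ := hp
      have h2' : ‖f₂ (p.1 + cis p.2) t.2.1‖ ≤ C := by simpa [hT] using h2
      refine ⟨if_pos h1, ?_, if_pos h3⟩
      rw [if_pos h2', one_mul]
    refine hrig (fun x => if ‖f₁ x t.1‖ ≤ C then f₁ x t.1 else 0)
      (fun x => if ‖f₂ x t.2.1‖ ≤ C then f₂ x t.2.1 else 0)
      (fun x => if ‖f₃ x t.2.2‖ ≤ C then f₃ x t.2.2 else 0) (hcl f₁ mf₁ t.1) (hcl f₂ mf₂ t.2.1)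
      (hcl f₃ mf₃ t.2.2) C (hcb f₁ t.1) (hcb f₂ t.2.1) (hcb f₃ t.2.2)
      ((fun x => (x, t)) ⁻¹' (T ⁻¹' Res ρ C)) (measurable_prodMk_right hTR) ?_ ?_ ?_
    · intro p hp
      obtain ⟨e1, e2, e3⟩ := hval p hp
      show (if ‖f₁ p.1 t.1‖ ≤ C then f₁ p.1 t.1 else 0) +
        (if ‖f₂ (p.1 + cis p.2) t.2.1‖ ≤ C then f₂ (p.1 + cis p.2) t.2.1 else 0) +
        (if ‖f₃ (p.1 + ρ * cis p.2) t.2.2‖ ≤ C then f₃ (p.1 + ρ * cis p.2) t.2.2 else 0) = 0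
      rw [e1, e2, e3]
      exact hp.1
    · intro p hp
      obtain ⟨e1, e2, e3⟩ := hval p hp
      show (conj (Complex.I * cis p.2) *
        ((if ‖f₂ (p.1 + cis p.2) t.2.1‖ ≤ C then f₂ (p.1 + cis p.2) t.2.1 else 0) + conj ρ *
        (if ‖f₃ (p.1 + ρ * cis p.2) t.2.2‖ ≤ C then f₃ (p.1 + ρ * cis p.2) t.2.2 else 0))).re = 0
      rw [e2, e3]
      exact hp.2.1
    · intro p hp
      obtain ⟨e1, e2, e3⟩ := hval p hp
      show (if ‖f₂ (p.1 + cis p.2) t.2.1‖ ≤ C then f₂ (p.1 + cis p.2) t.2.1 else 0) + conj ρ *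
        (if ‖f₃ (p.1 + ρ * cis p.2) t.2.2‖ ≤ C then f₃ (p.1 + ρ * cis p.2) t.2.2 else 0) ≠ 0
      rw [e2, e3]
      intro h0
      have h1 : 1 ≤ ‖f₂ (p.1 + 1 * cis p.2) t.2.1 + conj ρ * f₃ (p.1 + ρ * cis p.2) t.2.2‖ :=
        hp.2.2.1
      rw [h0, norm_zero] at h1
      exact absurd h1 (by norm_num)
  have h5 := Measure.measure_ae_null_of_prod_null (μ := (volume : Measure (ℂ × ℝ)))
    (ν := (volume : Measure (unitInterval × (unitInterval × unitInterval)))) hprod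
  filter_upwards [h5] with p hp
  rw [hsec]
  exact hp

end Pool.Agent.H36.Tri
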