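import Pool.Agent.H36.Tri.GpPair

/-!
# Project TRI, section 11: resonant labels are atoms
-/

set_option autoImplicit false

open MeasureTheory Set Filter Topology Metric ProbabilityTheory
open scoped ENNReal NNReal BoundedContinuousFunction ProbabilityTheory Real ComplexConjugate

namespace Pool.Agent.H36.Tri

open Pool.Agent.H24.Tri

/-- The statement of module GP-A. -/
def LinesStmt : Prop :=
  ∀ (ν : Measure ℂ) [IsFiniteMeasure ν] (κ : ℂ) (_ : κ ≠ 0),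
    ∀ᵐ θ : ℝ, ∀ s : ℝ, ν ({N | (conj (Complex.I * cis θ) * (κ * N)).re = s} ∩
      {N | ν {N} = 0}) = 0

theorem atom_measurable (ν : Kernel ℂ ℂ) [IsMarkovKernel ν] :
    Measurable fun q : ℂ × ℂ => ν q.1 {q.2} := by
  have h1 : MeasurableSet {q : (ℂ × ℂ) × ℂ | q.2 = q.1.2} :=
    measurableSet_eq_fun measurable_snd (measurable_snd.comp measurable_fst)
  exact Kernel.measurable_kernel_prodMk_left (κ := ν.comap Prod.fst measurable_fst) h1

/-- Pairs with the first entry on a line and not an atom. -/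
def QL (ν₁ : Kernel ℂ ℂ) (κ : ℂ) (s : ℝ → ℂ → ℝ) : Set ((ℂ × ℝ) × (ℂ × ℂ)) :=
  {q | (conj (Complex.I * cis q.1.2) * (κ * q.2.1)).re = s q.1.2 q.2.2 ∧ ν₁ q.1.1 {q.2.1} = 0}

/-- Pairs with the second entry on a line and not an atom. -/
def QR (ν₂ : Kernel ℂ ℂ) (c κ : ℂ) (s : ℝ → ℂ → ℝ) : Set ((ℂ × ℝ) × (ℂ × ℂ)) :=
  {q | (conj (Complex.I * cis q.1.2) * (κ * q.2.2)).re = s q.1.2 q.2.1 ∧
    ν₂ (q.1.1 + c * cis q.1.2) {q.2.2} = 0}

theorem QL_measurable (ν₁ : Kernel ℂ ℂ) [IsMarkovKernel ν₁] (κ : ℂ) (s : ℝ → ℂ → ℝ)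
    (hs : Measurable (Function.uncurry s)) : MeasurableSet (QL ν₁ κ s) := by
  have hc := cis_continuous
  refine (measurableSet_eq_fun ?_ ?_).inter ?_
  · have : Continuous fun q : (ℂ × ℝ) × (ℂ × ℂ) =>
        (conj (Complex.I * cis q.1.2) * (κ * q.2.1)).re := by fun_prop
    exact this.measurable
  · exact hs.comp ((measurable_snd.comp measurable_fst).prodMk (measurable_snd.comp measurable_snd))
  · have h1 : Measurable fun q : (ℂ × ℝ) × (ℂ × ℂ) => (q.1.1, q.2.1) := by fun_prop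
    exact ((atom_measurable ν₁).comp h1) (measurableSet_singleton 0)

theorem QR_measurable (ν₂ : Kernel ℂ ℂ) [IsMarkovKernel ν₂] (c κ : ℂ) (s : ℝ → ℂ → ℝ)
    (hs : Measurable (Function.uncurry s)) : MeasurableSet (QR ν₂ c κ s) := by
  have hc := cis_continuous
  refine (measurableSet_eq_fun ?_ ?_).inter ?_
  · have : Continuous fun q : (ℂ × ℝ) × (ℂ × ℂ) =>
        (conj (Complex.I * cis q.1.2) * (κ * q.2.2)).re := by fun_prop
    exact this.measurable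
  · exact hs.comp ((measurable_snd.comp measurable_fst).prodMk (measurable_fst.comp measurable_snd))
  · have h1 : Measurable fun q : (ℂ × ℝ) × (ℂ × ℂ) => (q.1.1 + c * cis q.1.2, q.2.2) := by
      fun_prop
    exact ((atom_measurable ν₂).comp h1) (measurableSet_singleton 0)

theorem gpAtomL (hlines : LinesStmt) (ν₁ ν₂ : Kernel ℂ ℂ) [IsMarkovKernel ν₁] [IsMarkovKernel ν₂]
    (r : ℝ) (c κ : ℂ) (hκ : κ ≠ 0) (s : ℝ → ℂ → ℝ) (hs : Measurable (Function.uncurry s)) :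
    ((volume.restrict (Om r c)) ⊗ₘ pk ν₁ ν₂ c) (QL ν₁ κ s) = 0 := by
  have hQ := QL_measurable ν₁ κ s hs
  set f : ℂ × ℝ → ℝ≥0∞ := fun p => pk ν₁ ν₂ c p (Prod.mk p ⁻¹' QL ν₁ κ s) with hf
  have hfm : Measurable f := Kernel.measurable_kernel_prodMk_left hQ
  rw [Measure.compProd_apply hQ]
  refine le_antisymm ((setLIntegral_le_lintegral _ f).trans ?_) bot_le
  rw [Measure.volume_eq_prod, lintegral_prod _ hfm.aemeasurable]
  refine le_of_eq ?_
  refine (lintegral_eq_zero_iff hfm.lintegral_prod_right').2 (ae_of_all _ fun z => ?_)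
  show ∫⁻ θ, f (z, θ) = 0
  refine (lintegral_eq_zero_iff (hfm.comp measurable_prodMk_left)).2 ?_
  filter_upwards [hlines (ν₁ z) κ hκ] with θ hθ
  show pk ν₁ ν₂ c (z, θ) (Prod.mk (z, θ) ⁻¹' QL ν₁ κ s) = 0
  rw [pk_apply, Measure.prod_apply_symm (measurable_prodMk_left hQ)]
  refine (lintegral_congr fun y => ?_).trans lintegral_zero
  exact hθ (s θ y)

theorem gpAtomR (hlines : LinesStmt) (ν₁ ν₂ : Kernel ℂ ℂ) [IsMarkovKernel ν₁] [IsMarkovKernel ν₂]
    (r : ℝ) (c κ : ℂ) (hκ : κ ≠ 0) (s : ℝ → ℂ → ℝ) (hs : Measurable (Function.uncurry s)) :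
    ((volume.restrict (Om r c)) ⊗ₘ pk ν₁ ν₂ c) (QR ν₂ c κ s) = 0 := by
  have hQ := QR_measurable ν₂ c κ s hs
  set f : ℂ × ℝ → ℝ≥0∞ := fun p => pk ν₁ ν₂ c p (Prod.mk p ⁻¹' QR ν₂ c κ s) with hf
  have hfm : Measurable f := Kernel.measurable_kernel_prodMk_left hQ
  rw [Measure.compProd_apply hQ]
  refine le_antisymm ((setLIntegral_le_lintegral _ f).trans ?_) bot_le
  rw [Measure.volume_eq_prod, lintegral_prod_symm _ hfm.aemeasurable]
  have h1 : ∀ θ : ℝ, ∫⁻ z, f (z, θ) = ∫⁻ x, f (x - c * cis θ, θ) :=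
    fun θ => (lintegral_sub_right_eq_self (fun z => f (z, θ)) (c * cis θ)).symm
  simp only [h1]
  have hcis := cis_continuous
  have hsh : Measurable fun q : ℝ × ℂ => ((q.2 - c * cis q.1, q.1) : ℂ × ℝ) := by fun_prop
  rw [lintegral_lintegral_swap (f := fun (θ : ℝ) (x : ℂ) => f (x - c * cis θ, θ))
    (hfm.comp hsh).aemeasurable]
  refine le_of_eq ?_
  have hsh' : Measurable fun q : ℂ × ℝ => ((q.1 - c * cis q.2, q.2) : ℂ × ℝ) := by fun_prop
  refine (lintegral_eq_zero_iff ((hfm.comp hsh').lintegral_prod_right')).2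
    (ae_of_all _ fun x => ?_)
  show ∫⁻ θ, f (x - c * cis θ, θ) = 0
  have hsx : Measurable fun θ : ℝ => ((x - c * cis θ, θ) : ℂ × ℝ) := by fun_prop
  refine (lintegral_eq_zero_iff (hfm.comp hsx)).2 ?_
  filter_upwards [hlines (ν₂ x) κ hκ] with θ hθ
  show pk ν₁ ν₂ c (x - c * cis θ, θ) (Prod.mk (x - c * cis θ, θ) ⁻¹' QR ν₂ c κ s) = 0
  rw [pk_apply, Measure.prod_apply (measurable_prodMk_left hQ)]
  have e : x - c * cis θ + c * cis θ = x := sub_add_cancel _ _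
  refine (lintegral_congr fun y => ?_).trans lintegral_zero
  have h2 : Prod.mk y ⁻¹' (Prod.mk (x - c * cis θ, θ) ⁻¹' QR ν₂ c κ s) =
      {N | (conj (Complex.I * cis θ) * (κ * N)).re = s θ y} ∩ {N | ν₂ x {N} = 0} := by
    ext N
    show (_ ∧ ν₂ (x - c * cis θ + c * cis θ) {N} = 0) ↔ (_ ∧ ν₂ x {N} = 0)
    rw [e]
    exact Iff.rfl
  show ν₂ (x - c * cis θ + c * cis θ) _ = 0
  rw [h2, e]
  exact hθ (s θ y)

end Pool.Agent.H36.Tri
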