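import Pool.Agent.H36.Tri.Gp

/-!
# Project TRI, section 11: the final theorem GP
-/

set_option autoImplicit false

open MeasureTheory Set Filter Topology Metric ProbabilityTheory
open scoped ENNReal NNReal BoundedContinuousFunction ProbabilityTheory Real ComplexConjugate

namespace Pool.Agent.H36.Tri

open Pool.Agent.H24.Tri

/-- The limit measure of the labelled triples. -/
theorem gpGamma (U : Ultrafilter ℕ) (D C : ℝ) (ρ : ℂ) (N₁ N₂ N₃ : ℕ → ℂ → ℂ)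
    (m₁ : ∀ n, Measurable (N₁ n)) (m₂ : ∀ n, Measurable (N₂ n)) (m₃ : ∀ n, Measurable (N₃ n))
    (b₁ : ∀ n z, ‖N₁ n z‖ ≤ C) (b₂ : ∀ n z, ‖N₂ n z‖ ≤ C) (b₃ : ∀ n z, ‖N₃ n z‖ ≤ C)
    (G : ℕ → Set (ℂ × ℝ))
    (hG : ∀ n, G n ⊆ closedBall (0 : ℂ) D ×ˢ Ioc 0 (2 * π)) (c : ℝ) (hc : 0 < c)
    (hvol : ∀ n, ENNReal.ofReal c ≤ volume (G n)) (τ : ℕ → ℝ) (hτ0 : ∀ n, 0 < τ n)
    (hτ : Tendsto τ U (𝓝 0))
    (hr1 : ∀ n, ∀ p ∈ G n, ‖N₁ n p.1 + N₂ n (p.1 + 1 * cis p.2) + N₃ n (p.1 + ρ * cis p.2)‖ ≤ τ n)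
    (hr2 : ∀ n, ∀ p ∈ G n, |(conj (Complex.I * cis p.2) *
      (N₂ n (p.1 + 1 * cis p.2) + conj ρ * N₃ n (p.1 + ρ * cis p.2))).re| ≤ τ n)
    (hr3 : ∀ n, ∀ p ∈ G n, 1 ≤ ‖N₂ n (p.1 + 1 * cis p.2) + conj ρ * N₃ n (p.1 + ρ * cis p.2)‖) :
    ∃ Γ : Measure ((ℂ × ℝ) × (ℂ × (ℂ × ℂ))), IsFiniteMeasure Γ ∧ Γ univ ≠ 0 ∧
      (∀ᵐ q ∂Γ, q ∈ Res ρ C) ∧ ∀ g : (ℂ × ℝ) × (ℂ × (ℂ × ℂ)) → ℝ, Continuous g →
        Tendsto (fun n => ∫ p in G n, g (p, (N₁ n p.1, (N₂ n (p.1 + 1 * cis p.2),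
          N₃ n (p.1 + ρ * cis p.2))))) U (𝓝 (∫ q, g q ∂Γ)) := by
  have hcis := cis_continuous
  set V : Set (ℂ × ℝ) := closedBall (0 : ℂ) D ×ˢ Ioc 0 (2 * π) with hV
  have hVfin : volume V < ⊤ := by
    rw [hV, Measure.volume_eq_prod, Measure.prod_prod]
    exact ENNReal.mul_lt_top measure_closedBall_lt_top measure_Ioc_lt_top
  have hGfin : ∀ n, volume (G n) < ⊤ := fun n => (measure_mono (hG n)).trans_lt hVfin
  have hT : ∀ n, Measurable fun p : ℂ × ℝ => (p, (N₁ n p.1, (N₂ n (p.1 + 1 * cis p.2),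
      N₃ n (p.1 + ρ * cis p.2)))) :=
    fun n => measurable_id.prodMk (((m₁ n).comp measurable_fst).prodMk
      (((m₂ n).comp (shift_measurable 1)).prodMk ((m₃ n).comp (shift_measurable ρ))))
  set K : Set ((ℂ × ℝ) × (ℂ × (ℂ × ℂ))) := (closedBall (0 : ℂ) D ×ˢ Icc 0 (2 * π)) ×ˢ
      (closedBall (0 : ℂ) C ×ˢ (closedBall (0 : ℂ) C ×ˢ closedBall (0 : ℂ) C)) with hKdef
  have hK : IsCompact K :=
    ((isCompact_closedBall _ _).prod isCompact_Icc).prod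
      ((isCompact_closedBall _ _).prod ((isCompact_closedBall _ _).prod
        (isCompact_closedBall _ _)))
  obtain ⟨Γ, hΓfin, hΓK, hΓ⟩ := gpLim U hK (volume V).toNNReal
    (fun n => (volume.restrict (G n)).map fun p => (p, (N₁ n p.1, (N₂ n (p.1 + 1 * cis p.2),
      N₃ n (p.1 + ρ * cis p.2)))))
    (fun n => by
      rw [Measure.map_apply (hT n) MeasurableSet.univ, preimage_univ,
        Measure.restrict_apply_univ, ENNReal.coe_toNNReal hVfin.ne]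
      exact measure_mono (hG n))
    (fun n => by
      rw [Measure.map_apply (hT n) hK.measurableSet.compl, Measure.restrict_apply
        (hT n hK.measurableSet.compl)]
      convert measure_empty (μ := (volume : Measure (ℂ × ℝ)))
      rw [eq_empty_iff_forall_notMem]
      rintro p ⟨h3, h4⟩
      have h5 := hG n h4
      refine h3 ⟨⟨h5.1, Ioc_subset_Icc_self h5.2⟩, ?_, ?_, ?_⟩
      · simpa using b₁ n p.1
      · simpa using b₂ n (p.1 + 1 * cis p.2)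
      · simpa using b₃ n (p.1 + ρ * cis p.2))
  have hΓ' : ∀ g : (ℂ × ℝ) × (ℂ × (ℂ × ℂ)) → ℝ, Continuous g →
      Tendsto (fun n => ∫ p in G n, g (p, (N₁ n p.1, (N₂ n (p.1 + 1 * cis p.2),
          N₃ n (p.1 + ρ * cis p.2))))) U (𝓝 (∫ q, g q ∂Γ)) := by
    intro g hg
    refine (hΓ g hg).congr fun n => ?_
    exact integral_map (hT n).aemeasurable hg.aestronglyMeasurable
  have hae : ∀ᵐ q ∂Γ, q ∈ K := by
    rw [ae_iff]
    exact hΓK
  -- vanishing of test functions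
  have hzero : ∀ F : (ℂ × ℝ) × (ℂ × (ℂ × ℂ)) → ℝ, Continuous F → (∀ q, 0 ≤ F q) →
      (∀ n, ∀ p ∈ G n, F (p, (N₁ n p.1, (N₂ n (p.1 + 1 * cis p.2),
          N₃ n (p.1 + ρ * cis p.2)))) ≤ τ n) → ∀ᵐ q ∂Γ, F q = 0 := by
    intro F hF hF0 hFτ
    have hint : Integrable F Γ := by
      obtain ⟨B, hB⟩ := hK.exists_bound_of_continuousOn hF.continuousOn
      refine Integrable.of_bound hF.aestronglyMeasurable B ?_
      filter_upwards [hae] with x hx using hB x hx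
    have h1 : ∫ q, F q ∂Γ = 0 := by
      refine tendsto_nhds_unique (hΓ' F hF) ?_
      have h2 : Tendsto (fun n => τ n * volume.real V) U (𝓝 0) := by
        simpa using hτ.mul_const (volume.real V)
      refine squeeze_zero_norm (fun n => ?_) h2
      have h3 : ‖∫ p in G n, F (p, (N₁ n p.1, (N₂ n (p.1 + 1 * cis p.2),
          N₃ n (p.1 + ρ * cis p.2))))‖ ≤ τ n * volume.real (G n) := by
        refine norm_setIntegral_le_of_norm_le_const (hGfin n) fun p hp => ?_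
        rw [Real.norm_eq_abs, abs_of_nonneg (hF0 _)]
        exact hFτ n p hp
      refine h3.trans ?_
      have h4 : volume.real (G n) ≤ volume.real V := measureReal_mono (hG n) hVfin.ne
      exact mul_le_mul_of_nonneg_left h4 (hτ0 n).le
    exact (integral_eq_zero_iff_of_nonneg hF0 hint).1 h1
  have hA1 := hzero (fun q => ‖q.2.1 + q.2.2.1 + q.2.2.2‖) (by fun_prop)
    (fun q => norm_nonneg _) hr1
  have hA2 := hzero (fun q => |(conj (Complex.I * cis q.1.2) *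
      (q.2.2.1 + conj ρ * q.2.2.2)).re|) (by fun_prop) (fun q => abs_nonneg _) hr2
  have hA3 := hzero (fun q => max 0 (1 - ‖q.2.2.1 + conj ρ * q.2.2.2‖)) (by fun_prop)
    (fun q => le_max_left _ _) (fun n p hp => by
      have h1 := hr3 n p hp
      refine max_le (hτ0 n).le ?_
      show 1 - ‖N₂ n (p.1 + 1 * cis p.2) + conj ρ * N₃ n (p.1 + ρ * cis p.2)‖ ≤ τ n
      have := (hτ0 n).le
      linarith)
  refine ⟨Γ, hΓfin, ?_, ?_, hΓ'⟩
  · intro h0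
    have h1 := hΓ' (fun _ => 1) continuous_const
    have h2 : ∫ q, (fun _ => (1 : ℝ)) q ∂Γ = 0 := by
      rw [Measure.measure_univ_eq_zero.1 h0]
      simp
    rw [h2] at h1
    have h3 : c ≤ 0 := by
      refine ge_of_tendsto' h1 fun n => ?_
      show c ≤ ∫ p in G n, (1 : ℝ)
      rw [setIntegral_const, smul_eq_mul, mul_one]
      have h4 := hvol n
      rw [measureReal_def]
      exact (ENNReal.ofReal_le_iff_le_toReal (hGfin n).ne).1 h4
    exact absurd hc (not_lt.2 h3)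
  · filter_upwards [hae, hA1, hA2, hA3] with q hq h1 h2 h3
    refine ⟨norm_eq_zero.1 h1, abs_eq_zero.1 h2, ?_, ?_, ?_, ?_⟩
    · have h4 : 1 - ‖q.2.2.1 + conj ρ * q.2.2.2‖ ≤ 0 := by
        rw [← h3]
        exact le_max_right _ _
      linarith
    · simpa using hq.2.1
    · simpa using hq.2.2.1
    · simpa using hq.2.2.2

/-- GP from RIG, GP-A and GP-C. -/
theorem gpMain (ρ : ℂ) (hi : ρ.im ≠ 0) (hrig : RigStmt ρ) (hlines : LinesStmt)
    (hbil : BilStmt) :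
    ∀ D C c : ℝ, 0 < D → 0 < C → 0 < c → ∃ τ : ℝ, 0 < τ ∧ ∀ N₁ N₂ N₃ : ℂ → ℂ,
      Measurable N₁ → Measurable N₂ → Measurable N₃ →
      (∀ z, ‖N₁ z‖ ≤ C) → (∀ z, ‖N₂ z‖ ≤ C) → (∀ z, ‖N₃ z‖ ≤ C) →
      volume {p : ℂ × ℝ | ‖p.1‖ ≤ D ∧ p.2 ∈ Ioc 0 (2 * π) ∧
        ‖N₁ p.1 + N₂ (p.1 + cis p.2) + N₃ (p.1 + ρ * cis p.2)‖ ≤ τ ∧
        |(conj (Complex.I * cis p.2) *
          (N₂ (p.1 + cis p.2) + conj ρ * N₃ (p.1 + ρ * cis p.2))).re| ≤ τ ∧
        1 ≤ ‖N₂ (p.1 + cis p.2) + conj ρ * N₃ (p.1 + ρ * cis p.2)‖} < ENNReal.ofReal c := by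
  intro D C c hD hC hc
  by_contra hcon
  push Not at hcon
  have hcis := cis_continuous
  have hcn : ∀ θ : ℝ, ‖cis θ‖ = 1 := fun θ => Complex.norm_exp_ofReal_mul_I θ
  have hτ : ∀ n : ℕ, (0 : ℝ) < 1 / ((n : ℝ) + 1) := fun n => by positivity
  choose N₁ N₂ N₃ m₁ m₂ m₃ b₁ b₂ b₃ hvol using fun n : ℕ => hcon (1 / ((n : ℝ) + 1)) (hτ n)
  set G : ℕ → Set (ℂ × ℝ) := fun n => {p : ℂ × ℝ | ‖p.1‖ ≤ D ∧ p.2 ∈ Ioc 0 (2 * π) ∧
        ‖N₁ n p.1 + N₂ n (p.1 + cis p.2) + N₃ n (p.1 + ρ * cis p.2)‖ ≤ 1 / ((n : ℝ) + 1) ∧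
        |(conj (Complex.I * cis p.2) *
          (N₂ n (p.1 + cis p.2) + conj ρ * N₃ n (p.1 + ρ * cis p.2))).re| ≤ 1 / ((n : ℝ) + 1) ∧
        1 ≤ ‖N₂ n (p.1 + cis p.2) + conj ρ * N₃ n (p.1 + ρ * cis p.2)‖} with hG
  have hGsub : ∀ n, G n ⊆ closedBall (0 : ℂ) D ×ˢ Ioc 0 (2 * π) := fun n p hp =>
    ⟨by simpa using hp.1, hp.2.1⟩
  set U : Ultrafilter ℕ := hyperfilter ℕ with hU
  have hUle : (U : Filter ℕ) ≤ atTop := by
    rw [← Nat.cofinite_eq_atTop]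
    exact hyperfilter_le_cofinite
  have hτlim : Tendsto (fun n : ℕ => 1 / ((n : ℝ) + 1)) U (𝓝 0) :=
    tendsto_one_div_add_atTop_nhds_zero_nat.mono_left hUle
  obtain ⟨Γ, hΓfin, hΓ0, hΓres, hΓ⟩ := gpGamma U D C ρ N₁ N₂ N₃ m₁ m₂ m₃ b₁ b₂ b₃ G hGsub c hc
    hvol (fun n => 1 / ((n : ℝ) + 1)) hτ hτlim
    (fun n p hp => by rw [one_mul]; exact hp.2.2.1)
    (fun n p hp => by rw [one_mul]; exact hp.2.2.2.1)
    (fun n p hp => by rw [one_mul]; exact hp.2.2.2.2)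
  -- the Young measures
  set r : ℝ := D + 1 + ‖ρ‖ with hr
  have hρn := norm_nonneg ρ
  obtain ⟨ν₁, hν₁, hY₁⟩ := gpYoung U r C N₁ m₁ b₁
  obtain ⟨ν₂, hν₂, hY₂⟩ := gpYoung U r C N₂ m₂ b₂
  obtain ⟨ν₃, hν₃, hY₃⟩ := gpYoung U r C N₃ m₃ b₃
  have hρ : ρ ≠ 0 := by
    rintro rfl
    exact hi rfl
  have hκ : conj ρ ≠ 0 := by
    intro h
    exact hρ ((map_eq_zero _).1 h)
  have hκ1 : 1 - conj ρ ≠ 0 := by
    intro h
    have h1 := congrArg Complex.im h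
    simp only [Complex.sub_im, Complex.one_im, Complex.conj_im, Complex.zero_im] at h1
    exact hi (by linarith)
  have hκ2 : conj ρ - 1 ≠ 0 := by
    intro h
    exact hκ1 (by linear_combination -h)
  have hG1 : ∀ n, G n ⊆ Om r 1 := by
    intro n p hp
    have h1 : ‖p.1‖ ≤ D := hp.1
    refine ⟨?_, hp.2.1, ?_⟩
    · rw [mem_closedBall_zero_iff]
      linarith
    · rw [mem_closedBall_zero_iff]
      have h2 := norm_add_le p.1 (1 * cis p.2)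
      rw [one_mul, hcn] at h2
      rw [one_mul]
      linarith
  have hG2 : ∀ n, G n ⊆ Om r ρ := by
    intro n p hp
    have h1 : ‖p.1‖ ≤ D := hp.1
    refine ⟨?_, hp.2.1, ?_⟩
    · rw [mem_closedBall_zero_iff]
      linarith
    · rw [mem_closedBall_zero_iff]
      have h2 := norm_add_le p.1 (ρ * cis p.2)
      rw [norm_mul, hcn, mul_one] at h2
      linarith
  -- the pair marginals
  have mp12 : Measurable fun q : (ℂ × ℝ) × (ℂ × (ℂ × ℂ)) => (q.1, (q.2.1, q.2.2.1)) := by fun_prop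
  have mp13 : Measurable fun q : (ℂ × ℝ) × (ℂ × (ℂ × ℂ)) => (q.1, (q.2.1, q.2.2.2)) := by fun_prop
  have hdom12 : Γ.map (fun q => (q.1, (q.2.1, q.2.2.1))) ≤
      (volume.restrict (Om r 1)) ⊗ₘ pk ν₁ ν₂ 1 := by
    refine gpPair hbil U r C 1 one_ne_zero N₁ N₂ m₁ m₂ b₁ b₂ ν₁ ν₂ hY₁ hY₂ G hG1 _ fun g hg => ?_
    rw [integral_map mp12.aemeasurable hg.aestronglyMeasurable]
    exact hΓ (fun q => g (q.1, (q.2.1, q.2.2.1))) (by fun_prop)
  have hdom13 : Γ.map (fun q => (q.1, (q.2.1, q.2.2.2))) ≤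
      (volume.restrict (Om r ρ)) ⊗ₘ pk ν₁ ν₃ ρ := by
    refine gpPair hbil U r C ρ hρ N₁ N₃ m₁ m₃ b₁ b₃ ν₁ ν₃ hY₁ hY₃ G hG2 _ fun g hg => ?_
    rw [integral_map mp13.aemeasurable hg.aestronglyMeasurable]
    exact hΓ (fun q => g (q.1, (q.2.1, q.2.2.2))) (by fun_prop)
  have null12 : ∀ S : Set ((ℂ × ℝ) × (ℂ × ℂ)), MeasurableSet S →
      ((volume.restrict (Om r 1)) ⊗ₘ pk ν₁ ν₂ 1) S = 0 →
        ∀ᵐ q ∂Γ, (q.1, (q.2.1, q.2.2.1)) ∉ S := by
    intro S hS h0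
    have h1 : Γ.map (fun q => (q.1, (q.2.1, q.2.2.1))) S = 0 :=
      le_antisymm ((hdom12 S).trans h0.le) bot_le
    rw [Measure.map_apply mp12 hS] at h1
    rw [ae_iff]
    simp only [not_not]
    exact h1
  have null13 : ∀ S : Set ((ℂ × ℝ) × (ℂ × ℂ)), MeasurableSet S →
      ((volume.restrict (Om r ρ)) ⊗ₘ pk ν₁ ν₃ ρ) S = 0 →
        ∀ᵐ q ∂Γ, (q.1, (q.2.1, q.2.2.2)) ∉ S := by
    intro S hS h0
    have h1 : Γ.map (fun q => (q.1, (q.2.1, q.2.2.2))) S = 0 :=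
      le_antisymm ((hdom13 S).trans h0.le) bot_le
    rw [Measure.map_apply mp13 hS] at h1
    rw [ae_iff]
    simp only [not_not]
    exact h1
  -- atoms
  have hs1 : Measurable (Function.uncurry fun (θ : ℝ) (b : ℂ) =>
      (conj (Complex.I * cis θ) * ((1 - conj ρ) * b)).re) := by
    have : Continuous (Function.uncurry fun (θ : ℝ) (b : ℂ) =>
      (conj (Complex.I * cis θ) * ((1 - conj ρ) * b)).re) := by
      show Continuous fun q : ℝ × ℂ => (conj (Complex.I * cis q.1) * ((1 - conj ρ) * q.2)).re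
      fun_prop
    exact this.measurable
  have hs2 : Measurable (Function.uncurry fun (θ : ℝ) (a : ℂ) =>
      (conj (Complex.I * cis θ) * (conj ρ * a)).re) := by
    have : Continuous (Function.uncurry fun (θ : ℝ) (a : ℂ) =>
      (conj (Complex.I * cis θ) * (conj ρ * a)).re) := by
      show Continuous fun q : ℝ × ℂ => (conj (Complex.I * cis q.1) * (conj ρ * q.2)).re
      fun_prop
    exact this.measurable
  have hs3 : Measurable (Function.uncurry fun (θ : ℝ) (a : ℂ) =>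
      (conj (Complex.I * cis θ) * a).re) := by
    have : Continuous (Function.uncurry fun (θ : ℝ) (a : ℂ) =>
      (conj (Complex.I * cis θ) * a).re) := by
      show Continuous fun q : ℝ × ℂ => (conj (Complex.I * cis q.1) * q.2).re
      fun_prop
    exact this.measurable
  have a1 := null12 _ (QL_measurable ν₁ (conj ρ) _ hs1) (gpAtomL hlines ν₁ ν₂ r 1 (conj ρ) hκ _ hs1)
  have a2 := null12 _ (QR_measurable ν₂ 1 (1 - conj ρ) _ hs2)
    (gpAtomR hlines ν₁ ν₂ r 1 (1 - conj ρ) hκ1 _ hs2)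
  have a3 := null13 _ (QR_measurable ν₃ ρ (conj ρ - 1) _ hs3)
    (gpAtomR hlines ν₁ ν₃ r ρ (conj ρ - 1) hκ2 _ hs3)
  -- positions
  have hRm := Res_measurable ρ C
  have hposm : Measurable fun p : ℂ × ℝ => pk3 ν₁ ν₂ ν₃ ρ p (Prod.mk p ⁻¹' Res ρ C) :=
    Kernel.measurable_kernel_prodMk_left hRm
  have hpos : ∀ᵐ q ∂Γ, pk3 ν₁ ν₂ ν₃ ρ q.1 (Prod.mk q.1 ⁻¹' Res ρ C) = 0 := by
    have h1 := gpNull ρ hrig ν₁ ν₂ ν₃ C hC.le
    set B : Set (ℂ × ℝ) := {p | pk3 ν₁ ν₂ ν₃ ρ p (Prod.mk p ⁻¹' Res ρ C) = 0}ᶜ with hB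
    have hBm : MeasurableSet B := (hposm (measurableSet_singleton 0)).compl
    have hB0 : volume B = 0 := h1
    have hS0 : ((volume.restrict (Om r 1)) ⊗ₘ pk ν₁ ν₂ 1) (B ×ˢ univ) = 0 := by
      have hAf : IsFiniteMeasure (volume.restrict (Om r 1)) :=
        ⟨by rw [Measure.restrict_apply_univ]; exact Om_finite r 1⟩
      have h2 : ((volume.restrict (Om r 1)) ⊗ₘ pk ν₁ ν₂ 1).fst B = volume.restrict (Om r 1) B := by
        rw [Measure.fst_compProd]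
      rw [Measure.fst_apply hBm] at h2
      rw [prod_univ, h2]
      exact le_antisymm ((Measure.restrict_apply_le _ _).trans hB0.le) bot_le
    filter_upwards [null12 _ (hBm.prod MeasurableSet.univ) hS0] with q hq
    by_contra h
    exact hq ⟨h, mem_univ _⟩
  -- conclusion
  refine hΓ0 ?_
  have hfalse : ∀ᵐ q ∂Γ, False := by
    filter_upwards [hΓres, a1, a2, a3, hpos] with q hq h1 h2 h3 h4
    obtain ⟨g1, g2, g3, g4, g5, g6⟩ := hq
    have hc3 : q.2.2.2 = -q.2.1 - q.2.2.1 := by linear_combination g1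
    have hb3 : q.2.2.1 = -q.2.1 - q.2.2.2 := by linear_combination g1
    have n1 : ν₁ q.1.1 {q.2.1} ≠ 0 := by
      intro h
      refine h1 ⟨?_, h⟩
      show (conj (Complex.I * cis q.1.2) * (conj ρ * q.2.1)).re =
        (conj (Complex.I * cis q.1.2) * ((1 - conj ρ) * q.2.2.1)).re
      rw [← sub_eq_zero, ← Complex.sub_re, ← neg_eq_zero, ← Complex.neg_re, ← g2, hc3]
      congr 1
      ring
    have n2 : ν₂ (q.1.1 + 1 * cis q.1.2) {q.2.2.1} ≠ 0 := by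
      intro h
      refine h2 ⟨?_, h⟩
      show (conj (Complex.I * cis q.1.2) * ((1 - conj ρ) * q.2.2.1)).re =
        (conj (Complex.I * cis q.1.2) * (conj ρ * q.2.1)).re
      rw [← sub_eq_zero, ← Complex.sub_re, ← g2, hc3]
      congr 1
      ring
    have n3 : ν₃ (q.1.1 + ρ * cis q.1.2) {q.2.2.2} ≠ 0 := by
      intro h
      refine h3 ⟨?_, h⟩
      show (conj (Complex.I * cis q.1.2) * ((conj ρ - 1) * q.2.2.2)).re =
        (conj (Complex.I * cis q.1.2) * q.2.1).re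
      rw [← sub_eq_zero, ← Complex.sub_re, ← g2, hb3]
      congr 1
      ring
    have h5 : pk3 ν₁ ν₂ ν₃ ρ q.1 {q.2} = 0 := by
      refine le_antisymm (le_trans (measure_mono ?_) h4.le) bot_le
      rw [singleton_subset_iff]
      exact ⟨g1, g2, g3, g4, g5, g6⟩
    rw [pk3_apply] at h5
    have h6 : ({q.2} : Set (ℂ × (ℂ × ℂ))) = {q.2.1} ×ˢ ({q.2.2.1} ×ˢ {q.2.2.2}) := by
      rw [singleton_prod_singleton, singleton_prod_singleton]
    rw [h6, Measure.prod_prod, Measure.prod_prod] at h5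
    exact (mul_ne_zero n1 (mul_ne_zero n2 n3)) h5
  rw [ae_iff] at hfalse
  simpa using hfalse

end Pool.Agent.H36.Tri
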