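import Pool.Agent.H24.Tri.Defs
import Pool.Agent.H36.Tri.GpLim

/-!
# Project TRI, section 11: domination of pair marginals
-/

set_option autoImplicit false

open MeasureTheory Set Filter Topology Metric ProbabilityTheory
open scoped ENNReal NNReal BoundedContinuousFunction ProbabilityTheory Real

namespace Pool.Agent.H36.Tri

open Pool.Agent.H24.Tri

/-- The statement of the bilinear limit (module GP-C). -/
def BilStmt : Prop :=
  ∀ (U : Filter ℕ) [U.NeBot] (c : ℂ) (_ : c ≠ 0) (F H : ℕ → ℂ → ℝ)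
    (F' H' : ℂ → ℝ) (_ : ∀ n, Measurable (F n)) (_ : ∀ n, Measurable (H n))
    (_ : Measurable F') (_ : Measurable H') (M D : ℝ)
    (_ : ∀ n x, |F n x| ≤ M) (_ : ∀ n x, |H n x| ≤ M) (_ : ∀ x, |F' x| ≤ M)
    (_ : ∀ x, |H' x| ≤ M) (_ : ∀ n x, D ≤ ‖x‖ → F n x = 0) (_ : ∀ n x, D ≤ ‖x‖ → H n x = 0)
    (_ : ∀ x, D ≤ ‖x‖ → F' x = 0) (_ : ∀ x, D ≤ ‖x‖ → H' x = 0)
    (_ : ∀ φ : ℂ → ℝ, Continuous φ → Tendsto (fun n => ∫ x, φ x * F n x) U (𝓝 (∫ x, φ x * F' x)))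
    (_ : ∀ φ : ℂ → ℝ, Continuous φ → Tendsto (fun n => ∫ x, φ x * H n x) U (𝓝 (∫ x, φ x * H' x)))
    (a₁ : ℂ → ℝ) (a₂ : ℝ → ℝ) (_ : Continuous a₁) (_ : Continuous a₂)
    (_ : ∀ x, 0 ≤ a₁ x) (_ : ∀ x, 0 ≤ a₂ x),
    Tendsto (fun n => ∫ θ in Ioc 0 (2 * π), ∫ z, a₁ z * a₂ θ * F n z * H n (z + c * cis θ)) U
      (𝓝 (∫ θ in Ioc 0 (2 * π), ∫ z, a₁ z * a₂ θ * F' z * H' (z + c * cis θ)))

theorem cis_continuous : Continuous cis := by
  unfold cis
  fun_prop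

/-- The pairs `(z, θ)` with `z` and `z + c cis θ` in the ball of radius `r`. -/
def Om (r : ℝ) (c : ℂ) : Set (ℂ × ℝ) :=
  {p | p.1 ∈ closedBall (0 : ℂ) r ∧ p.2 ∈ Ioc 0 (2 * π) ∧ p.1 + c * cis p.2 ∈ closedBall (0 : ℂ) r}

theorem shift_measurable (c : ℂ) : Measurable fun p : ℂ × ℝ => p.1 + c * cis p.2 := by
  have := cis_continuous
  fun_prop

theorem Om_measurable (r : ℝ) (c : ℂ) : MeasurableSet (Om r c) :=
  (measurable_fst measurableSet_closedBall).inter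
    ((measurable_snd measurableSet_Ioc).inter (shift_measurable c measurableSet_closedBall))

theorem Om_finite (r : ℝ) (c : ℂ) : volume (Om r c) < ⊤ := by
  have h1 : Om r c ⊆ closedBall (0 : ℂ) r ×ˢ Ioc 0 (2 * π) := fun p hp => ⟨hp.1, hp.2.1⟩
  refine (measure_mono h1).trans_lt ?_
  rw [Measure.volume_eq_prod, Measure.prod_prod]
  exact ENNReal.mul_lt_top measure_closedBall_lt_top measure_Ioc_lt_top

/-- The kernel of pairs. -/
noncomputable def pk (ν₁ ν₂ : Kernel ℂ ℂ) (c : ℂ) : Kernel (ℂ × ℝ) (ℂ × ℂ) :=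
  (ν₁.comap Prod.fst measurable_fst) ×ₖ
    (ν₂.comap (fun p : ℂ × ℝ => p.1 + c * cis p.2) (shift_measurable c))

instance (ν₁ ν₂ : Kernel ℂ ℂ) [IsMarkovKernel ν₁] [IsMarkovKernel ν₂] (c : ℂ) :
    IsMarkovKernel (pk ν₁ ν₂ c) := by
  unfold pk
  infer_instance

theorem pk_apply (ν₁ ν₂ : Kernel ℂ ℂ) [IsMarkovKernel ν₁] [IsMarkovKernel ν₂] (c : ℂ)
    (p : ℂ × ℝ) : pk ν₁ ν₂ c p = (ν₁ p.1).prod (ν₂ (p.1 + c * cis p.2)) := by
  unfold pk
  rw [Kernel.prod_apply, Kernel.comap_apply, Kernel.comap_apply]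

/-- Fubini for bounded functions. -/
theorem gpFub (r : ℝ) (c : ℂ) (f₁ : ℂ → ℝ) (f₂ : ℝ → ℝ) (P Q : ℂ → ℝ) (M : ℝ)
    (mf₁ : Measurable f₁) (mf₂ : Measurable f₂) (mP : Measurable P) (mQ : Measurable Q)
    (b₁ : ∀ x, |f₁ x| ≤ M) (b₂ : ∀ x, |f₂ x| ≤ M) (bP : ∀ x, |P x| ≤ M) (bQ : ∀ x, |Q x| ≤ M) :
    ∫ p in Om r c, f₁ p.1 * f₂ p.2 * P p.1 * Q (p.1 + c * cis p.2) =
      ∫ θ in Ioc 0 (2 * π), ∫ z, f₁ z * f₂ θ * (closedBall (0 : ℂ) r).indicator P z *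
        (closedBall (0 : ℂ) r).indicator Q (z + c * cis θ) := by
  set X : Set ℂ := closedBall (0 : ℂ) r with hX
  have hXm : MeasurableSet X := measurableSet_closedBall
  set f : ℂ × ℝ → ℝ := fun p => f₁ p.1 * f₂ p.2 * X.indicator P p.1 *
    X.indicator Q (p.1 + c * cis p.2) with hf
  have hfm : Measurable f := by
    have h1 := shift_measurable c
    have h2 : Measurable (X.indicator P) := mP.indicator hXm
    have h3 : Measurable (X.indicator Q) := mQ.indicator hXm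
    exact (((mf₁.comp measurable_fst).mul (mf₂.comp measurable_snd)).mul
      (h2.comp measurable_fst)).mul (h3.comp h1)
  have hM : 0 ≤ M := (abs_nonneg _).trans (b₁ 0)
  have hfb : ∀ p, ‖f p‖ ≤ M * M * M * M := by
    intro p
    have hi1 : |X.indicator P p.1| ≤ M := by
      by_cases h : p.1 ∈ X
      · rw [indicator_of_mem h]
        exact bP _
      · rw [indicator_of_notMem h, abs_zero]
        exact hM
    have hi2 : |X.indicator Q (p.1 + c * cis p.2)| ≤ M := by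
      by_cases h : p.1 + c * cis p.2 ∈ X
      · rw [indicator_of_mem h]
        exact bQ _
      · rw [indicator_of_notMem h, abs_zero]
        exact hM
    rw [Real.norm_eq_abs, hf]
    show |f₁ p.1 * f₂ p.2 * X.indicator P p.1 * X.indicator Q (p.1 + c * cis p.2)| ≤ _
    rw [abs_mul, abs_mul, abs_mul]
    have h3 := b₁ p.1
    have h4 := b₂ p.2
    gcongr
  have h1 : ∫ p in Om r c, f₁ p.1 * f₂ p.2 * P p.1 * Q (p.1 + c * cis p.2) =
      ∫ p in Om r c, f p := by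
    refine setIntegral_congr_fun (Om_measurable r c) fun p hp => ?_
    show _ = f₁ p.1 * f₂ p.2 * X.indicator P p.1 * X.indicator Q (p.1 + c * cis p.2)
    rw [indicator_of_mem hp.1, indicator_of_mem hp.2.2]
  have hsub : Om r c ⊆ (univ : Set ℂ) ×ˢ Ioc 0 (2 * π) := fun p hp => ⟨mem_univ _, hp.2.1⟩
  have h2 : ∫ p in Om r c, f p = ∫ p in (univ : Set ℂ) ×ˢ Ioc 0 (2 * π), f p := by
    refine (setIntegral_eq_of_subset_of_forall_sdiff_eq_zero
      (MeasurableSet.univ.prod measurableSet_Ioc) hsub fun p hp => ?_).symm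
    have h3 : p.1 ∉ X ∨ p.1 + c * cis p.2 ∉ X := by
      by_contra h
      push Not at h
      exact hp.2 ⟨h.1, hp.1.2, h.2⟩
    show f₁ p.1 * f₂ p.2 * X.indicator P p.1 * X.indicator Q (p.1 + c * cis p.2) = 0
    rcases h3 with h | h
    · rw [indicator_of_notMem h]
      ring
    · rw [indicator_of_notMem h]
      ring
  have hint : IntegrableOn f ((univ : Set ℂ) ×ˢ Ioc 0 (2 * π)) := by
    have h4 : IntegrableOn f (Om r c) := by
      have : IsFiniteMeasure (volume.restrict (Om r c)) :=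
        ⟨by rw [Measure.restrict_apply_univ]; exact Om_finite r c⟩
      exact Integrable.of_bound hfm.aestronglyMeasurable _ (ae_of_all _ hfb)
    refine h4.of_forall_sdiff_eq_zero (MeasurableSet.univ.prod measurableSet_Ioc) fun p hp => ?_
    have h3 : p.1 ∉ X ∨ p.1 + c * cis p.2 ∉ X := by
      by_contra h
      push Not at h
      exact hp.2 ⟨h.1, hp.1.2, h.2⟩
    show f₁ p.1 * f₂ p.2 * X.indicator P p.1 * X.indicator Q (p.1 + c * cis p.2) = 0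
    rcases h3 with h | h
    · rw [indicator_of_notMem h]
      ring
    · rw [indicator_of_notMem h]
      ring
  rw [h1, h2]
  rw [IntegrableOn, Measure.volume_eq_prod, ← Measure.prod_restrict, Measure.restrict_univ] at hint
  rw [Measure.volume_eq_prod, ← Measure.prod_restrict, Measure.restrict_univ,
    integral_prod_symm _ hint]

/-- The Young measure property. -/
def Young (U : Ultrafilter ℕ) (r : ℝ) (N : ℕ → ℂ → ℂ) (ν : Kernel ℂ ℂ) : Prop :=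
  ∀ (φ : ℂ → ℝ) (b : ℂ →ᵇ ℝ), Continuous φ →
    Tendsto (fun n => ∫ x in closedBall (0 : ℂ) r, φ x * b (N n x)) U
      (𝓝 (∫ x in closedBall (0 : ℂ) r, φ x * ∫ y, b y ∂(ν x)))

/-- Real valued copy of a bounded continuous function with values in `ℝ≥0`. -/
noncomputable def toR {E : Type*} [TopologicalSpace E] (g : E →ᵇ ℝ≥0) : E →ᵇ ℝ :=
  BoundedContinuousFunction.ofNormedAddCommGroup (fun x => (g x : ℝ)) (by fun_prop)
    (nndist g 0) (fun x => by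
      rw [Real.norm_eq_abs, NNReal.abs_eq]
      exact_mod_cast BoundedContinuousFunction.NNReal.upper_bound g x)

theorem toR_apply {E : Type*} [TopologicalSpace E] (g : E →ᵇ ℝ≥0) (x : E) : toR g x = g x := rfl

theorem toR_bound {E : Type*} [TopologicalSpace E] (g : E →ᵇ ℝ≥0) (x : E) :
    |toR g x| ≤ ‖toR g‖ := (toR g).norm_coe_le_norm x

/-- The product limit. -/
theorem gpProd (hbil : BilStmt) (U : Ultrafilter ℕ) (r : ℝ) (c : ℂ) (hc : c ≠ 0)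
    (N₁ N₂ : ℕ → ℂ → ℂ) (m₁ : ∀ n, Measurable (N₁ n)) (m₂ : ∀ n, Measurable (N₂ n))
    (ν₁ ν₂ : Kernel ℂ ℂ) [IsMarkovKernel ν₁] [IsMarkovKernel ν₂]
    (h₁ : Young U r N₁ ν₁) (h₂ : Young U r N₂ ν₂)
    (f₁ : ℂ →ᵇ ℝ≥0) (f₂ : ℝ →ᵇ ℝ≥0) (g₁ g₂ : ℂ →ᵇ ℝ≥0) :
    Tendsto (fun n => ∫ p in Om r c, toR f₁ p.1 * toR f₂ p.2 * toR g₁ (N₁ n p.1) *
        toR g₂ (N₂ n (p.1 + c * cis p.2))) U
      (𝓝 (∫ p in Om r c, toR f₁ p.1 * toR f₂ p.2 * (∫ y, toR g₁ y ∂(ν₁ p.1)) *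
        (∫ y, toR g₂ y ∂(ν₂ (p.1 + c * cis p.2))))) := by
  set X : Set ℂ := closedBall (0 : ℂ) r with hX
  have hXm : MeasurableSet X := measurableSet_closedBall
  set M : ℝ := ‖toR f₁‖ + ‖toR f₂‖ + ‖toR g₁‖ + ‖toR g₂‖ with hM
  have n1 := norm_nonneg (toR f₁)
  have n2 := norm_nonneg (toR f₂)
  have n3 := norm_nonneg (toR g₁)
  have n4 := norm_nonneg (toR g₂)
  have bf₁ : ∀ x, |toR f₁ x| ≤ M := fun x => (toR_bound f₁ x).trans (by linarith)
  have bf₂ : ∀ x, |toR f₂ x| ≤ M := fun x => (toR_bound f₂ x).trans (by linarith)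
  have bg₁ : ∀ x, |toR g₁ x| ≤ M := fun x => (toR_bound g₁ x).trans (by linarith)
  have bg₂ : ∀ x, |toR g₂ x| ≤ M := fun x => (toR_bound g₂ x).trans (by linarith)
  have hM0 : 0 ≤ M := by linarith
  have bint : ∀ (ν : Kernel ℂ ℂ) [IsMarkovKernel ν] (g : ℂ →ᵇ ℝ≥0), (∀ x, |toR g x| ≤ M) →
      ∀ x, |∫ y, toR g y ∂(ν x)| ≤ M := by
    intro ν _ g hg x
    have h := norm_integral_le_of_norm_le_const (μ := ν x) (f := fun y => toR g y) (C := M)
      (ae_of_all _ hg)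
    simpa using h
  have mint : ∀ (ν : Kernel ℂ ℂ) [IsMarkovKernel ν] (g : ℂ →ᵇ ℝ≥0),
      Measurable fun x => ∫ y, toR g y ∂(ν x) := fun ν _ g =>
    (StronglyMeasurable.integral_kernel (κ := ν) (f := fun y => toR g y)
      (toR g).continuous.stronglyMeasurable).measurable
  have mf₁ : Measurable fun x => toR f₁ x := (toR f₁).continuous.measurable
  have mf₂ : Measurable fun x => toR f₂ x := (toR f₂).continuous.measurable
  have mg₁ : ∀ n, Measurable fun x => toR g₁ (N₁ n x) := fun n =>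
    (toR g₁).continuous.measurable.comp (m₁ n)
  have mg₂ : ∀ n, Measurable fun x => toR g₂ (N₂ n x) := fun n =>
    (toR g₂).continuous.measurable.comp (m₂ n)
  have e1 : ∀ n, ∫ p in Om r c, toR f₁ p.1 * toR f₂ p.2 * toR g₁ (N₁ n p.1) *
        toR g₂ (N₂ n (p.1 + c * cis p.2)) = ∫ θ in Ioc 0 (2 * π), ∫ z, toR f₁ z * toR f₂ θ *
        X.indicator (fun x => toR g₁ (N₁ n x)) z *
        X.indicator (fun x => toR g₂ (N₂ n x)) (z + c * cis θ) := fun n =>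
    gpFub r c (fun x => toR f₁ x) (fun x => toR f₂ x) (fun x => toR g₁ (N₁ n x))
      (fun x => toR g₂ (N₂ n x)) M mf₁ mf₂ (mg₁ n) (mg₂ n) bf₁ bf₂ (fun x => bg₁ _)
      (fun x => bg₂ _)
  have e2 : ∫ p in Om r c, toR f₁ p.1 * toR f₂ p.2 * (∫ y, toR g₁ y ∂(ν₁ p.1)) *
        (∫ y, toR g₂ y ∂(ν₂ (p.1 + c * cis p.2))) = ∫ θ in Ioc 0 (2 * π), ∫ z, toR f₁ z *
        toR f₂ θ * X.indicator (fun x => ∫ y, toR g₁ y ∂(ν₁ x)) z *
        X.indicator (fun x => ∫ y, toR g₂ y ∂(ν₂ x)) (z + c * cis θ) :=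
    gpFub r c (fun x => toR f₁ x) (fun x => toR f₂ x) (fun x => ∫ y, toR g₁ y ∂(ν₁ x))
      (fun x => ∫ y, toR g₂ y ∂(ν₂ x)) M mf₁ mf₂ (mint ν₁ g₁) (mint ν₂ g₂) bf₁ bf₂
      (bint ν₁ g₁ bg₁) (bint ν₂ g₂ bg₂)
  rw [e2]
  simp only [e1]
  have hind : ∀ (P : ℂ → ℝ), (∀ x, |P x| ≤ M) → ∀ x, |X.indicator P x| ≤ M := by
    intro P hP x
    by_cases h : x ∈ X
    · rw [indicator_of_mem h]
      exact hP x
    · rw [indicator_of_notMem h, abs_zero]
      exact hM0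
  have hzero : ∀ (P : ℂ → ℝ) (x : ℂ), r + 1 ≤ ‖x‖ → X.indicator P x = 0 := by
    intro P x hx
    refine indicator_of_notMem ?_ _
    rw [hX, mem_closedBall_zero_iff]
    linarith
  have hset : ∀ (φ P : ℂ → ℝ), ∫ x, φ x * X.indicator P x = ∫ x in X, φ x * P x := by
    intro φ P
    rw [← integral_indicator hXm]
    congr 1
    funext x
    by_cases h : x ∈ X
    · rw [indicator_of_mem h, indicator_of_mem h]
    · rw [indicator_of_notMem h, indicator_of_notMem h, mul_zero]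
  refine hbil U c hc (fun n => X.indicator (fun x => toR g₁ (N₁ n x)))
    (fun n => X.indicator (fun x => toR g₂ (N₂ n x))) (X.indicator fun x => ∫ y, toR g₁ y ∂(ν₁ x))
    (X.indicator fun x => ∫ y, toR g₂ y ∂(ν₂ x)) (fun n => (mg₁ n).indicator hXm)
    (fun n => (mg₂ n).indicator hXm) ((mint ν₁ g₁).indicator hXm) ((mint ν₂ g₂).indicator hXm)
    M (r + 1) (fun n => hind _ fun x => bg₁ _) (fun n => hind _ fun x => bg₂ _)
    (hind _ (bint ν₁ g₁ bg₁)) (hind _ (bint ν₂ g₂ bg₂)) (fun n => hzero _) (fun n => hzero _)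
    (hzero _) (hzero _) (fun φ hφ => ?_) (fun φ hφ => ?_) (fun x => toR f₁ x) (fun x => toR f₂ x)
    (toR f₁).continuous (toR f₂).continuous (fun x => NNReal.coe_nonneg _)
    (fun x => NNReal.coe_nonneg _)
  · simp only [hset]
    exact h₁ φ (toR g₁) hφ
  · simp only [hset]
    exact h₂ φ (toR g₂) hφ

/-- Domination of the pair marginals. -/
theorem gpPair (hbil : BilStmt) (U : Ultrafilter ℕ) (r C : ℝ) (c : ℂ) (hc : c ≠ 0)
    (N₁ N₂ : ℕ → ℂ → ℂ) (m₁ : ∀ n, Measurable (N₁ n)) (m₂ : ∀ n, Measurable (N₂ n))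
    (b₁ : ∀ n z, ‖N₁ n z‖ ≤ C) (b₂ : ∀ n z, ‖N₂ n z‖ ≤ C)
    (ν₁ ν₂ : Kernel ℂ ℂ) [IsMarkovKernel ν₁] [IsMarkovKernel ν₂]
    (h₁ : Young U r N₁ ν₁) (h₂ : Young U r N₂ ν₂)
    (G : ℕ → Set (ℂ × ℝ)) (hG : ∀ n, G n ⊆ Om r c)
    (Γ : Measure ((ℂ × ℝ) × (ℂ × ℂ))) [IsFiniteMeasure Γ]
    (hΓ : ∀ g : (ℂ × ℝ) × (ℂ × ℂ) → ℝ, Continuous g →
      Tendsto (fun n => ∫ p in G n, g (p, (N₁ n p.1, N₂ n (p.1 + c * cis p.2)))) U
        (𝓝 (∫ q, g q ∂Γ))) :
    Γ ≤ (volume.restrict (Om r c)) ⊗ₘ pk ν₁ ν₂ c := by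
  have hAm := Om_measurable r c
  have hAfin := Om_finite r c
  have hAf : IsFiniteMeasure (volume.restrict (Om r c)) :=
    ⟨by rw [Measure.restrict_apply_univ]; exact hAfin⟩
  have hT : ∀ n, Measurable fun p : ℂ × ℝ => (p, (N₁ n p.1, N₂ n (p.1 + c * cis p.2))) :=
    fun n => measurable_id.prodMk (((m₁ n).comp measurable_fst).prodMk
      ((m₂ n).comp (shift_measurable c)))
  have hK : IsCompact ((closedBall (0 : ℂ) r ×ˢ Icc 0 (2 * π)) ×ˢ
      (closedBall (0 : ℂ) C ×ˢ closedBall (0 : ℂ) C)) :=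
    ((isCompact_closedBall _ _).prod isCompact_Icc).prod
      ((isCompact_closedBall _ _).prod (isCompact_closedBall _ _))
  obtain ⟨σ, hσfin, -, hσ⟩ := gpLim U hK (volume (Om r c)).toNNReal
    (fun n => (volume.restrict (Om r c)).map fun p => (p, (N₁ n p.1, N₂ n (p.1 + c * cis p.2))))
    (fun n => by
      rw [Measure.map_apply (hT n) MeasurableSet.univ, preimage_univ,
        Measure.restrict_apply_univ, ENNReal.coe_toNNReal hAfin.ne])
    (fun n => by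
      rw [Measure.map_apply (hT n) hK.measurableSet.compl, Measure.restrict_apply
        (hT n hK.measurableSet.compl)]
      convert measure_empty (μ := (volume : Measure (ℂ × ℝ)))
      rw [eq_empty_iff_forall_notMem]
      rintro p ⟨h3, h4⟩
      refine h3 ⟨⟨h4.1, Ioc_subset_Icc_self h4.2.1⟩, ?_, ?_⟩
      · simpa using b₁ n p.1
      · simpa using b₂ n (p.1 + c * cis p.2))
  have hσ' : ∀ g : (ℂ × ℝ) × (ℂ × ℂ) → ℝ, Continuous g →
      Tendsto (fun n => ∫ p in Om r c, g (p, (N₁ n p.1, N₂ n (p.1 + c * cis p.2)))) U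
        (𝓝 (∫ q, g q ∂σ)) := by
    intro g hg
    refine (hσ g hg).congr fun n => ?_
    exact integral_map (hT n).aemeasurable hg.aestronglyMeasurable
  -- identification of the limit
  have hσκ : σ = (volume.restrict (Om r c)) ⊗ₘ pk ν₁ ν₂ c := by
    refine gpExt _ _ fun f₁ f₂ g₁ g₂ => ?_
    have hcont : Continuous fun p : (ℂ × ℝ) × (ℂ × ℂ) =>
        toR f₁ p.1.1 * toR f₂ p.1.2 * toR g₁ p.2.1 * toR g₂ p.2.2 := by fun_prop
    have hbd : ∀ p : (ℂ × ℝ) × (ℂ × ℂ),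
        ‖toR f₁ p.1.1 * toR f₂ p.1.2 * toR g₁ p.2.1 * toR g₂ p.2.2‖ ≤
          ‖toR f₁‖ * ‖toR f₂‖ * ‖toR g₁‖ * ‖toR g₂‖ := by
      intro p
      rw [norm_mul, norm_mul, norm_mul]
      have h3 := (toR f₁).norm_coe_le_norm p.1.1
      have h4 := (toR f₂).norm_coe_le_norm p.1.2
      have h5 := (toR g₁).norm_coe_le_norm p.2.1
      have h6 := (toR g₂).norm_coe_le_norm p.2.2
      gcongr
    have hint : ∀ (κ : Measure ((ℂ × ℝ) × (ℂ × ℂ))) [IsFiniteMeasure κ], Integrable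
        (fun p : (ℂ × ℝ) × (ℂ × ℂ) =>
          toR f₁ p.1.1 * toR f₂ p.1.2 * toR g₁ p.2.1 * toR g₂ p.2.2) κ := fun κ _ =>
      Integrable.of_bound hcont.aestronglyMeasurable _ (ae_of_all _ hbd)
    have hl : ∀ (κ : Measure ((ℂ × ℝ) × (ℂ × ℂ))) [IsFiniteMeasure κ],
        ∫⁻ p, ((f₁ p.1.1 * f₂ p.1.2 * g₁ p.2.1 * g₂ p.2.2 : ℝ≥0) : ℝ≥0∞) ∂κ =
          ENNReal.ofReal (∫ p, toR f₁ p.1.1 * toR f₂ p.1.2 * toR g₁ p.2.1 * toR g₂ p.2.2 ∂κ) := by
      intro κ _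
      have h3 := lintegral_coe_eq_integral
        (fun p : (ℂ × ℝ) × (ℂ × ℂ) => f₁ p.1.1 * f₂ p.1.2 * g₁ p.2.1 * g₂ p.2.2) (μ := κ)
        (by
          refine (hint κ).congr (ae_of_all _ fun p => ?_)
          simp [toR_apply])
      rw [h3]
      congr 2
    rw [hl, hl]
    congr 1
    refine tendsto_nhds_unique (hσ' _ hcont) ?_
    have h3 := gpProd hbil U r c hc N₁ N₂ m₁ m₂ ν₁ ν₂ h₁ h₂ f₁ f₂ g₁ g₂
    have h4 : ∫ q, toR f₁ q.1.1 * toR f₂ q.1.2 * toR g₁ q.2.1 * toR g₂ q.2.2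
        ∂((volume.restrict (Om r c)) ⊗ₘ pk ν₁ ν₂ c) = ∫ p in Om r c, toR f₁ p.1 * toR f₂ p.2 *
          (∫ y, toR g₁ y ∂(ν₁ p.1)) * (∫ y, toR g₂ y ∂(ν₂ (p.1 + c * cis p.2))) := by
      rw [Measure.integral_compProd (hint _)]
      refine integral_congr_ae (ae_of_all _ fun p => ?_)
      show ∫ b : ℂ × ℂ, toR f₁ p.1 * toR f₂ p.2 * toR g₁ b.1 * toR g₂ b.2 ∂(pk ν₁ ν₂ c p) = _
      rw [pk_apply]
      have h5 := integral_prod_mul (μ := ν₁ p.1) (ν := ν₂ (p.1 + c * cis p.2))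
        (fun y => toR g₁ y) (fun y => toR g₂ y)
      calc ∫ b : ℂ × ℂ, toR f₁ p.1 * toR f₂ p.2 * toR g₁ b.1 * toR g₂ b.2
            ∂((ν₁ p.1).prod (ν₂ (p.1 + c * cis p.2)))
          = ∫ b : ℂ × ℂ, (toR f₁ p.1 * toR f₂ p.2) * (toR g₁ b.1 * toR g₂ b.2)
            ∂((ν₁ p.1).prod (ν₂ (p.1 + c * cis p.2))) := by
            congr 1
            funext b
            ring
        _ = (toR f₁ p.1 * toR f₂ p.2) * ∫ b : ℂ × ℂ, toR g₁ b.1 * toR g₂ b.2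
            ∂((ν₁ p.1).prod (ν₂ (p.1 + c * cis p.2))) := integral_const_mul _ _
        _ = _ := by rw [h5]; ring
    rw [h4]
    exact h3
  rw [← hσκ]
  refine gpDom Γ σ fun g => ?_
  have hgi : ∀ (κ : Measure ((ℂ × ℝ) × (ℂ × ℂ))) [IsFiniteMeasure κ],
      Integrable (fun q => ((g q : ℝ≥0) : ℝ)) κ := fun κ _ =>
    Integrable.of_bound (by fun_prop) ‖toR g‖ (ae_of_all _ fun q => (toR g).norm_coe_le_norm q)
  rw [lintegral_coe_eq_integral _ (hgi Γ), lintegral_coe_eq_integral _ (hgi σ)]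
  refine ENNReal.ofReal_le_ofReal ?_
  have hgc : Continuous fun q => ((g q : ℝ≥0) : ℝ) := by fun_prop
  refine le_of_tendsto_of_tendsto' (hΓ _ hgc) (hσ' _ hgc) fun n => ?_
  refine setIntegral_mono_set ?_ (ae_of_all _ fun p => NNReal.coe_nonneg _)
    (LE.le.eventuallyLE (hG n))
  refine Integrable.of_bound (hgc.measurable.comp (hT n)).aestronglyMeasurable ‖toR g‖
    (ae_of_all _ fun q => (toR g).norm_coe_le_norm _)

end Pool.Agent.H36.Tri
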